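import Mathlib
import Pool.Agent.OneRelCS.Final

/-!
# Rational cross-sections of one-relator groups for every finite generating set
-/

set_option autoImplicit false

namespace Pool.Agent.Results.MP_8a7b18_al.EveryGeneratingSet

universe u v w

/-- the version for families which generate `G` as a monoid -/
theorem monoid_version {X : Type u} [Finite X] (r : FreeGroup X) {G : Type v} [Group G]
    (e : G ≃* PresentedGroup ({r} : Set (FreeGroup X))) {A : Type w} [Finite A] (a : A → G)
    (ha : Submonoid.closure (Set.range a) = ⊤) :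
    ∃ L : Language A, L.IsRegular ∧ ∀ g : G, ∃! v : List A, v ∈ L ∧ (v.map a).prod = g := by
  classical
  obtain ⟨n, ⟨eX⟩⟩ := Finite.exists_equiv_fin X
  obtain ⟨m, ⟨eA⟩⟩ := Finite.exists_equiv_fin A
  let r' : FreeGroup (Fin n) := FreeGroup.freeGroupCongr eX r
  have hr' : FreeGroup.freeGroupCongr eX '' ({r} : Set (FreeGroup X)) = {r'} := by
    rw [Set.image_singleton]
  let e1 : PresentedGroup ({r} : Set (FreeGroup X)) ≃*
      PresentedGroup (FreeGroup.freeGroupCongr eX '' ({r} : Set (FreeGroup X))) :=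
    PresentedGroup.equivPresentedGroup _ eX
  obtain ⟨e2⟩ : Nonempty (G ≃* PresentedGroup ({r'} : Set (FreeGroup (Fin n)))) := by
    rw [← hr']
    exact ⟨e.trans e1⟩
  obtain ⟨σ, hσ, M, hM⟩ := Pool.Agent.OneRelCS.final r'
  -- the value in `G` of a word
  let φ : List (Fin n × Bool) → G := fun w =>
    e2.symm (PresentedGroup.mk ({r'} : Set (FreeGroup (Fin n))) (FreeGroup.mk w))
  have hφ : ∀ w w' : List (Fin n × Bool), φ (w ++ w') = φ w * φ w' := by
    intro w w'
    simp only [φ]
    rw [← FreeGroup.mul_mk, map_mul, map_mul]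
  have hφ0 : φ [] = 1 := by
    simp only [φ]
    rw [← FreeGroup.one_eq_mk, map_one, map_one]
  have hinj : ∀ w ∈ M.accepts, ∀ w' ∈ M.accepts, φ w = φ w' → w = w' := by
    intro w hw w' hw' h
    have h1 := hM.1 (a₁ := ⟨w, hw⟩) (a₂ := ⟨w', hw'⟩) (e2.symm.injective h)
    exact congrArg Subtype.val h1
  have hsurj : ∀ g : G, ∃ w ∈ M.accepts, φ w = g := by
    intro g
    obtain ⟨⟨w, hw⟩, h⟩ := hM.2 (e2 g)
    refine ⟨w, hw, ?_⟩
    simp only [φ]
    rw [MulEquiv.symm_apply_eq]
    exact h
  -- words in the new generators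
  have hs : ∀ b : Fin n × Bool, ∃ s : List A, (s.map a).prod = φ [b] := by
    intro b
    have h1 : φ [b] ∈ Submonoid.closure (Set.range a) := by rw [ha]; trivial
    obtain ⟨l, hl, hl2⟩ := Submonoid.exists_list_of_mem_closure h1
    have h2 : ∀ l : List G, (∀ y ∈ l, y ∈ Set.range a) → ∃ s : List A, s.map a = l := by
      intro l
      induction l with
      | nil => intro _; exact ⟨[], rfl⟩
      | cons y l ih =>
        intro h
        obtain ⟨s, hs⟩ := ih fun z hz => h z (List.mem_cons_of_mem _ hz)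
        obtain ⟨c, hc⟩ := h y List.mem_cons_self
        exact ⟨c :: s, by rw [List.map_cons, hs, hc]⟩
    obtain ⟨s, hs⟩ := h2 l hl
    exact ⟨s, by rw [hs, hl2]⟩
  choose s hs using hs
  have hval : ∀ w : List (Fin n × Bool), ((w.flatMap s).map a).prod = φ w := by
    intro w
    induction w with
    | nil => simp [hφ0]
    | cons b w ih =>
      rw [List.flatMap_cons, List.map_append, List.prod_append, hs, ih, ← hφ]
      rfl
  -- the language
  have hreg := Pool.Agent.OneRelCS.isRegular_flatMap (L := M.accepts) ⟨σ, hσ, M, rfl⟩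
    (fun b => (s b).map eA)
  obtain ⟨τ, hτ, N, hN⟩ := hreg
  have hmem : ∀ v : List A, v ∈ (N.comap eA).accepts ↔ ∃ w ∈ M.accepts, w.flatMap s = v := by
    intro v
    have h1 : v ∈ (N.comap eA).accepts ↔ v.map eA ∈ N.accepts := by
      rw [DFA.accepts_comap]
      rfl
    rw [h1, hN]
    have h3 : ∀ w : List (Fin n × Bool),
        w.flatMap (fun b => (s b).map eA) = (w.flatMap s).map eA := by
      intro w
      rw [List.map_flatMap]
    constructor
    · rintro ⟨w, hw, h2⟩
      refine ⟨w, hw, ?_⟩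
      have h4 : (w.flatMap s).map eA = v.map eA := by
        rw [← h3]
        exact h2
      exact List.map_injective_iff.2 eA.injective h4
    · rintro ⟨w, hw, h2⟩
      refine ⟨w, hw, ?_⟩
      show w.flatMap (fun b => (s b).map eA) = v.map eA
      rw [h3, h2]
  refine ⟨(N.comap eA).accepts, ⟨τ, hτ, N.comap eA, rfl⟩, fun g => ?_⟩
  obtain ⟨w, hw, hwg⟩ := hsurj g
  refine ⟨w.flatMap s, ⟨(hmem _).2 ⟨w, hw, rfl⟩, by rw [hval, hwg]⟩, ?_⟩
  rintro v ⟨hv, hvg⟩
  obtain ⟨w', hw', rfl⟩ := (hmem v).1 hv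
  rw [hval] at hvg
  rw [hinj w' hw' w hw (by rw [hvg, hwg])]

/-- **Every one-relator group has a rational cross-section with respect to every finite generating
set.** -/
theorem result (X : Type u) [Finite X] (r : FreeGroup X) (G : Type v) [Group G]
    (e : G ≃* PresentedGroup ({r} : Set (FreeGroup X))) :
    (∃ A : Set G, A.Finite ∧ Subgroup.closure A = ⊤) ∧
    (∀ A : Set G, A.Finite → Subgroup.closure A = ⊤ →
      ∃ L : Language ↥(A ∪ A⁻¹), L.IsRegular ∧
        ∀ g : G, ∃! v : List ↥(A ∪ A⁻¹), v ∈ L ∧ (v.map Subtype.val).prod = g) ∧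
    (∀ (B : Type w) [Finite B] (b : B → G), Submonoid.closure (Set.range b) = ⊤ →
      ∃ L : Language B, L.IsRegular ∧ ∀ g : G, ∃! v : List B, v ∈ L ∧ (v.map b).prod = g) := by
  refine ⟨?_, fun A hA hA2 => ?_, fun B _ b hb => monoid_version r e b hb⟩
  · refine ⟨Set.range fun x : X => e.symm (PresentedGroup.of x), Set.finite_range _, ?_⟩
    have h1 : (Set.range fun x : X => e.symm (PresentedGroup.of x)) =
        e.symm.toMonoidHom '' Set.range (PresentedGroup.of (rels := ({r} : Set (FreeGroup X)))) := by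
      rw [← Set.range_comp]
      rfl
    rw [h1, ← MonoidHom.map_closure, PresentedGroup.closure_range_of, ← MonoidHom.range_eq_map]
    exact MonoidHom.range_eq_top.2 e.symm.surjective
  · have : Finite ↥(A ∪ A⁻¹) := (hA.union hA.inv).to_subtype
    refine monoid_version r e (Subtype.val : ↥(A ∪ A⁻¹) → G) ?_
    rw [Subtype.range_coe, ← Subgroup.closure_toSubmonoid, hA2]
    rfl

end Pool.Agent.Results.MP_8a7b18_al.EveryGeneratingSet
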